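import Pool.Agent.Helper94_Rad.Stmt

/-! helper17: module NCT of squad RAD (MP_c59389_nt). -/

namespace Pool.Agent.RAD.H17

open Polynomial

theorem mem_box {α : ℂ} {ρ : ℝ} {c : ℤ} (h : ‖(c : ℂ) - α‖ < ρ) :
    c ∈ Finset.Icc ⌈α.re - ρ⌉ ⌊α.re + ρ⌋ := by
  have h1 : |(c : ℝ) - α.re| < ρ := by
    refine lt_of_le_of_lt ?_ h
    have := Complex.abs_re_le_norm ((c : ℂ) - α)
    simpa using this
  rw [abs_lt] at h1
  rw [Finset.mem_Icc]
  exact ⟨Int.ceil_le.2 (by linarith), Int.le_floor.2 (by linarith)⟩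

theorem card_box (a : ℝ) {ρ : ℝ} (hρ : 0 ≤ ρ) :
    ((Finset.Icc ⌈a - ρ⌉ ⌊a + ρ⌋).card : ℝ) ≤ 2 * ρ + 1 := by
  rw [Int.card_Icc]
  have h1 : ((⌊a + ρ⌋ : ℤ) : ℝ) ≤ a + ρ := Int.floor_le _
  have h2 : a - ρ ≤ ((⌈a - ρ⌉ : ℤ) : ℝ) := Int.le_ceil _
  have h3 : (((⌊a + ρ⌋ + 1 - ⌈a - ρ⌉).toNat : ℤ) : ℝ) ≤ 2 * ρ + 1 := by
    rw [Int.toNat_eq_max, Int.cast_max]
    refine max_le ?_ ?_
    · push_cast; linarith
    · push_cast; linarith
  exact_mod_cast h3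

theorem nct : NctStmt := by
  classical
  intro R D ρ hD hρ
  set s : Finset ℤ := (R.map (Int.castRingHom ℂ)).roots.toFinset.biUnion
    (fun α => Finset.Icc ⌈α.re - ρ⌉ ⌊α.re + ρ⌋) with hs
  have hsub : {c : ℤ | Near R ρ c} ⊆ (s : Set ℤ) := by
    rintro c ⟨α, hα, h⟩
    rw [hs, Finset.mem_coe, Finset.mem_biUnion]
    exact ⟨α, Multiset.mem_toFinset.2 hα, mem_box h⟩
  refine ⟨s.finite_toSet.subset hsub, ?_⟩
  have h1 : ({c : ℤ | Near R ρ c}.ncard : ℝ) ≤ (s.card : ℝ) := by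
    have := Set.ncard_le_ncard hsub s.finite_toSet
    rw [Set.ncard_coe_finset] at this
    exact_mod_cast this
  have h2 : (s.card : ℝ) ≤ ∑ α ∈ (R.map (Int.castRingHom ℂ)).roots.toFinset, (2 * ρ + 1) := by
    have e0 : s.card ≤ ∑ α ∈ (R.map (Int.castRingHom ℂ)).roots.toFinset,
        (Finset.Icc ⌈α.re - ρ⌉ ⌊α.re + ρ⌋).card := Finset.card_biUnion_le
    have e1 : (s.card : ℝ) ≤ ∑ α ∈ (R.map (Int.castRingHom ℂ)).roots.toFinset,
        ((Finset.Icc ⌈α.re - ρ⌉ ⌊α.re + ρ⌋).card : ℝ) := by exact_mod_cast e0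
    exact e1.trans (Finset.sum_le_sum (fun α _ => card_box α.re hρ))
  have h3 : ((R.map (Int.castRingHom ℂ)).roots.toFinset.card : ℝ) ≤ D := by
    have e1 := Multiset.toFinset_card_le (R.map (Int.castRingHom ℂ)).roots
    have e2 := Polynomial.card_roots' (R.map (Int.castRingHom ℂ))
    have e3 : (R.map (Int.castRingHom ℂ)).natDegree ≤ R.natDegree := Polynomial.natDegree_map_le
    have e4 := e1.trans (e2.trans (e3.trans hD.le))
    exact_mod_cast e4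
  rw [Finset.sum_const, nsmul_eq_mul] at h2
  refine h1.trans (h2.trans ?_)
  exact mul_le_mul_of_nonneg_right h3 (by linarith)

end Pool.Agent.RAD.H17
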